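import Pool.Agent.Y16.AF.StmA

set_option autoImplicit false

/-!
# AF-SYM: the ghosts cancel the transverse modes
-/

namespace Pool.Agent.Y739.AF

open Matrix Complex
open Pool.Agent.Y16.AF
open scoped ComplexConjugate

noncomputable section

/-! ### Sesquilinear forms of matrices -/

def form {I : Type} [Fintype I] (M : Matrix I I ℂ) (x y : I → ℂ) : ℂ :=
  ∑ a, ∑ b, conj (x a) * M a b * y b

theorem eq_of_form {I : Type} [Fintype I] [DecidableEq I] {M N : Matrix I I ℂ}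
    (h : ∀ x y, form M x y = form N x y) : M = N := by
  ext a b
  have h1 := h (Pi.single a 1) (Pi.single b 1)
  have h2 : ∀ M : Matrix I I ℂ, form M (Pi.single a 1) (Pi.single b 1) = M a b := by
    intro M
    unfold form
    rw [Finset.sum_eq_single a, Finset.sum_eq_single b]
    · simp
    · intro c _ hc
      rw [Pi.single_eq_of_ne hc, mul_zero]
    · intro hb
      exact absurd (Finset.mem_univ b) hb
    · intro c _ hc
      refine Finset.sum_eq_zero fun d _ => ?_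
      rw [Pi.single_eq_of_ne hc, map_zero, zero_mul, zero_mul]
    · intro ha
      exact absurd (Finset.mem_univ a) ha
  rw [h2, h2] at h1
  exact h1

theorem form_add {I : Type} [Fintype I] (M N : Matrix I I ℂ) (x y : I → ℂ) :
    form (M + N) x y = form M x y + form N x y := by
  unfold form
  rw [← Finset.sum_add_distrib]
  refine Finset.sum_congr rfl fun a _ => ?_
  rw [← Finset.sum_add_distrib]
  refine Finset.sum_congr rfl fun b _ => ?_
  rw [Matrix.add_apply]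
  ring

theorem form_reindex {I J : Type} [Fintype I] [Fintype J] (e : J ≃ I) (M : Matrix I I ℂ)
    (x y : J → ℂ) : form (M.submatrix e e) x y = form M (x ∘ e.symm) (y ∘ e.symm) := by
  unfold form
  rw [← e.sum_comp]
  refine Finset.sum_congr rfl fun a _ => ?_
  rw [← e.sum_comp]
  refine Finset.sum_congr rfl fun b _ => ?_
  simp

theorem form_blocks {I J : Type} [Fintype I] [Fintype J] (A : Matrix I I ℂ) (B : Matrix I J ℂ)
    (C : Matrix J I ℂ) (D : Matrix J J ℂ) (x y : I ⊕ J → ℂ) :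
    form (Matrix.fromBlocks A B C D) x y =
      (∑ a, ∑ b, conj (x (.inl a)) * A a b * y (.inl b)) +
      (∑ a, ∑ b, conj (x (.inl a)) * B a b * y (.inr b)) +
      (∑ a, ∑ b, conj (x (.inr a)) * C a b * y (.inl b)) +
      (∑ a, ∑ b, conj (x (.inr a)) * D a b * y (.inr b)) := by
  unfold form
  rw [Fintype.sum_sum_type]
  simp only [Fintype.sum_sum_type, Matrix.fromBlocks_apply₁₁, Matrix.fromBlocks_apply₁₂,
    Matrix.fromBlocks_apply₂₁, Matrix.fromBlocks_apply₂₂, Finset.sum_add_distrib]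
  ring

/-- the form of `D D^*` -/
theorem form_gram {I J : Type} [Fintype I] [Fintype J] (D : Matrix I J ℂ) (x y : I → ℂ) :
    form (D * Dᴴ) x y = ∑ s, conj (∑ a, conj (D a s) * x a) * ∑ a, conj (D a s) * y a := by
  unfold form
  have h1 : ∀ a b, conj (x a) * (D * Dᴴ) a b * y b =
      ∑ s, (conj (x a) * D a s) * (conj (D b s) * y b) := by
    intro a b
    rw [Matrix.mul_apply, Finset.mul_sum, Finset.sum_mul]
    refine Finset.sum_congr rfl fun s _ => ?_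
    rw [Matrix.conjTranspose_apply]
    simp only [RCLike.star_def]
    ring
  simp only [h1]
  have h2 : ∀ s, conj (∑ a, conj (D a s) * x a) * ∑ a, conj (D a s) * y a =
      ∑ a, ∑ b, (conj (x a) * D a s) * (conj (D b s) * y b) := by
    intro s
    rw [map_sum, Finset.sum_mul_sum]
    refine Finset.sum_congr rfl fun a _ => Finset.sum_congr rfl fun b _ => ?_
    rw [map_mul, Complex.conj_conj]
    ring
  simp only [h2]
  rw [Finset.sum_congr rfl fun a _ => Finset.sum_comm, Finset.sum_comm]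

/-! ### Tridiagonal sums -/

theorem tri (n : ℕ) (M : ℕ → ℕ → ℂ) (X Y : ℕ → ℂ)
    (hM : ∀ s t, s ≠ t → t ≠ s + 1 → s ≠ t + 1 → M s t = 0) (hX : X n = 0) (hY : Y n = 0) :
    ∑ s ∈ Finset.range n, ∑ t ∈ Finset.range n, X s * M s t * Y t =
      ∑ t ∈ Finset.range n, (M t t * (X t * Y t) + M t (t + 1) * (X t * Y (t + 1)) +
        M (t + 1) t * (X (t + 1) * Y t)) := by
  have h1 : ∀ s t, X s * M s t * Y t = (if s = t then M t t * (X t * Y t) else 0) +
      (if t = s + 1 then M s (s + 1) * (X s * Y (s + 1)) else 0) +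
      (if s = t + 1 then M (t + 1) t * (X (t + 1) * Y t) else 0) := by
    intro s t
    by_cases a1 : s = t
    · subst a1
      simp
      ring
    · by_cases a2 : t = s + 1
      · subst a2
        rw [if_neg a1, if_pos rfl, if_neg (by omega)]
        ring
      · by_cases a3 : s = t + 1
        · subst a3
          rw [if_neg a1, if_neg a2, if_pos rfl]
          ring
        · rw [if_neg a1, if_neg a2, if_neg a3, hM s t a1 a2 a3]
          ring
  simp only [h1, Finset.sum_add_distrib]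
  congr 1
  · congr 1
    · refine Finset.sum_congr rfl fun s hs => ?_
      rw [Finset.sum_ite_eq, if_pos hs]
    · refine Finset.sum_congr rfl fun s hs => ?_
      rw [Finset.sum_ite_eq']
      split_ifs with h
      · rfl
      · have : s + 1 = n := by
          rw [Finset.mem_range] at hs h
          omega
        rw [this, hY]
        ring
  · rw [Finset.sum_comm]
    refine Finset.sum_congr rfl fun t ht => ?_
    rw [Finset.sum_ite_eq']
    split_ifs with h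
    · rfl
    · have : t + 1 = n := by
        rw [Finset.mem_range] at ht h
        omega
      rw [this, hX]
      ring

theorem mix (n : ℕ) (M : ℕ → ℕ → ℂ) (X Y : ℕ → ℂ)
    (hM : ∀ s t, s ≠ t → s ≠ t + 1 → M s t = 0) :
    ∑ s ∈ Finset.range (n + 1), ∑ t ∈ Finset.range n, X s * M s t * Y t =
      ∑ t ∈ Finset.range n, (M t t * (X t * Y t) + M (t + 1) t * (X (t + 1) * Y t)) := by
  have h1 : ∀ s t, X s * M s t * Y t = (if s = t then M t t * (X t * Y t) else 0) +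
      (if s = t + 1 then M (t + 1) t * (X (t + 1) * Y t) else 0) := by
    intro s t
    by_cases a1 : s = t
    · subst a1
      simp
      ring
    · by_cases a3 : s = t + 1
      · subst a3
        simp
        ring
      · rw [if_neg a1, if_neg a3, hM s t a1 a3]
        ring
  rw [Finset.sum_comm]
  simp only [h1, Finset.sum_add_distrib]
  congr 1
  · refine Finset.sum_congr rfl fun t ht => ?_
    rw [Finset.sum_ite_eq', if_pos]
    rw [Finset.mem_range] at ht ⊢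
    omega
  · refine Finset.sum_congr rfl fun t ht => ?_
    rw [Finset.sum_ite_eq', if_pos]
    rw [Finset.mem_range] at ht ⊢
    omega

/-! ### The form of the Hessian -/

variable {L : ℕ}

/-- extension by zero -/
def ex (y : AL L → ℂ) (o : Option (AL L)) : ℂ := o.elim 0 y

def TT (y : AL L → ℂ) (t : ℕ) : ℂ := ex y (vT L t)

def SS (y : AL L → ℂ) (t : ℕ) (j : Fin 3) : ℂ := ex y (vS L t j)

theorem sum_inl1 (t : Fin L) (κ : Fin 3 ⊕ Fin 3) (i : Fin 4) (y : AL L → ℂ) :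
    ∑ b, inl1 t κ i b * y b = (sg κ i : ℂ) * ex y (lv t κ i) := by
  unfold inl1
  rcases h : lv t κ i with _ | a
  · simp [ex]
  · simp [ex, Finset.sum_ite_eq]

/-- the transported values of the legs -/
def XX (ε : ℝ) (z : Fin 3 → ℂ) (t : Fin L) (κ : Fin 3 ⊕ Fin 3) (i : Fin 4) (y : AL L → ℂ) : ℂ :=
  cc (ta t κ * ε) i * lz z κ i * ((sg κ i : ℂ) * ex y (lv t κ i))

theorem conj_inl1 (t : Fin L) (κ : Fin 3 ⊕ Fin 3) (i : Fin 4) (a : AL L) :
    conj (inl1 t κ i a) = inl1 t κ i a := by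
  unfold inl1
  split_ifs
  · rw [Complex.conj_ofReal]
  · rw [map_zero]

theorem form_hS (ε : ℝ) (z : Fin 3 → ℂ) (x y : AL L → ℂ) :
    form (Matrix.of (hS ε z)) x y = ∑ t : Fin L, ∑ κ, ∑ i, ∑ j,
      ww (al L κ * ε) i j * (conj (XX ε z t κ i x) * XX ε z t κ j y) := by
  have h1 : ∀ a b, conj (x a) * (Matrix.of (hS ε z)) a b * y b =
      ∑ t : Fin L, ∑ κ, ∑ i, ∑ j, ww (al L κ * ε) i j *
        ((conj (cc (ta t κ * ε) i * lz z κ i) * conj (inl1 t κ i a * x a)) *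
        ((cc (ta t κ * ε) j * lz z κ j) * (inl1 t κ j b * y b))) := by
    intro a b
    simp only [Matrix.of_apply, hS, Finset.mul_sum, Finset.sum_mul]
    refine Finset.sum_congr rfl fun t _ => Finset.sum_congr rfl fun κ _ =>
      Finset.sum_congr rfl fun i _ => Finset.sum_congr rfl fun j _ => ?_
    simp only [om, map_mul, conj_inl1]
    ring
  unfold form
  simp only [h1]
  have h2 : ∀ (t : Fin L) (κ : Fin 3 ⊕ Fin 3) (i j : Fin 4),
      ww (al L κ * ε) i j * (conj (XX ε z t κ i x) * XX ε z t κ j y) =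
      ∑ a, ∑ b, ww (al L κ * ε) i j *
        ((conj (cc (ta t κ * ε) i * lz z κ i) * conj (inl1 t κ i a * x a)) *
        ((cc (ta t κ * ε) j * lz z κ j) * (inl1 t κ j b * y b))) := by
    intro t κ i j
    simp only [XX, ← sum_inl1]
    simp only [← Finset.mul_sum]
    congr 1
    rw [← Finset.sum_mul, ← Finset.mul_sum, map_mul, map_sum]
  simp only [h2]
  have c1 : ∀ F : AL L → AL L → Fin L → (Fin 3 ⊕ Fin 3) → Fin 4 → Fin 4 → ℂ,
      ∑ a, ∑ b, ∑ t, ∑ κ, ∑ i, ∑ j, F a b t κ i j =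
      ∑ t, ∑ κ, ∑ i, ∑ j, ∑ a, ∑ b, F a b t κ i j := by
    intro F
    simp only [← Fintype.sum_prod_type']
    refine Fintype.sum_equiv ⟨fun p => ⟨p.2.2.1, p.2.2.2.1, p.2.2.2.2.1, p.2.2.2.2.2, p.1, p.2.1⟩,
      fun p => ⟨p.2.2.2.2.1, p.2.2.2.2.2, p.1, p.2.1, p.2.2.1, p.2.2.2.1⟩, fun p => rfl,
      fun p => rfl⟩ _ _ fun p => rfl
  exact c1 _

theorem ww_zero (i j : Fin 4) : ww 0 i j = 1 := by
  unfold ww
  split_ifs <;> simp

theorem sum_ww_zero (X Y : Fin 4 → ℂ) :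
    ∑ i, ∑ j, ww 0 i j * (conj (X i) * Y j) = conj (∑ i, X i) * ∑ j, Y j := by
  simp only [ww_zero, one_mul]
  rw [map_sum, Finset.sum_mul_sum]

/-! ### Phases -/

def qq (L : ℕ) (ε : ℝ) : ℂ := Complex.exp (Complex.I * (((ε / (L : ℝ) ^ 2 : ℝ) : ℂ) / 2))

def wt (L : ℕ) (ε : ℝ) (z0 : ℂ) (t : ℕ) : ℂ :=
  Complex.exp (Complex.I * (ε * t / (L : ℝ) ^ 2)) * z0

def wj (L : ℕ) (ε : ℝ) (z : Fin 3 → ℂ) (j : Fin 3) (t : ℕ) : ℂ :=
  if j = 0 then wt L ε (z 0) t else z j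

theorem qq_ne (L : ℕ) (ε : ℝ) : qq L ε ≠ 0 := Complex.exp_ne_zero _

theorem conj_exp_I (x : ℝ) : conj (Complex.exp (Complex.I * x)) =
    (Complex.exp (Complex.I * x))⁻¹ := by
  rw [← Complex.exp_conj, ← Complex.exp_neg, map_mul, Complex.conj_I, Complex.conj_ofReal]
  congr 1
  ring

theorem conj_qq (L : ℕ) (ε : ℝ) : conj (qq L ε) = (qq L ε)⁻¹ := by
  unfold qq
  have : (((ε / (L : ℝ) ^ 2 : ℝ) : ℂ) / 2) = ((ε / (L : ℝ) ^ 2 / 2 : ℝ) : ℂ) := by push_cast; ring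
  rw [this]
  exact conj_exp_I _

theorem qq_neg (L : ℕ) (ε : ℝ) :
    Complex.exp (-(Complex.I * (((ε / (L : ℝ) ^ 2 : ℝ) : ℂ) / 2))) = (qq L ε)⁻¹ :=
  Complex.exp_neg _

theorem cos_qq (L : ℕ) (ε : ℝ) :
    ((Real.cos (ε / (L : ℝ) ^ 2 / 2) : ℝ) : ℂ) = (qq L ε + (qq L ε)⁻¹) / 2 := by
  rw [← qq_neg, Complex.ofReal_cos, Complex.cos]
  unfold qq
  congr 2
  · congr 1
    push_cast
    ring
  · congr 1
    push_cast
    ring

theorem sin_qq (L : ℕ) (ε : ℝ) :
    ((Real.sin (ε / (L : ℝ) ^ 2 / 2) : ℝ) : ℂ) = ((qq L ε)⁻¹ - qq L ε) * Complex.I / 2 := by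
  rw [← qq_neg, Complex.ofReal_sin, Complex.sin]
  unfold qq
  congr 3
  · congr 1
    push_cast
    ring
  · congr 1
    push_cast
    ring

theorem conj_unit {z : ℂ} (hz : ‖z‖ = 1) : conj z = z⁻¹ := by
  rw [Complex.inv_def, Complex.normSq_eq_norm_sq, hz]
  simp

theorem norm_wt (L : ℕ) (ε : ℝ) {z0 : ℂ} (hz : ‖z0‖ = 1) (t : ℕ) : ‖wt L ε z0 t‖ = 1 := by
  unfold wt
  rw [norm_mul, hz, mul_one]
  have : Complex.I * ((ε : ℂ) * t / (L : ℝ) ^ 2) = Complex.I * ((ε * t / (L : ℝ) ^ 2 : ℝ) : ℂ) := by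
    push_cast
    ring
  rw [this, mul_comm, Complex.norm_exp_ofReal_mul_I]

theorem conj_wt (L : ℕ) (ε : ℝ) {z0 : ℂ} (hz : ‖z0‖ = 1) (t : ℕ) :
    conj (wt L ε z0 t) = (wt L ε z0 t)⁻¹ := conj_unit (norm_wt L ε hz t)

theorem wt_ne (L : ℕ) (ε : ℝ) {z0 : ℂ} (hz : ‖z0‖ = 1) (t : ℕ) : wt L ε z0 t ≠ 0 := by
  intro h
  have := norm_wt L ε hz t
  rw [h, norm_zero] at this
  exact zero_ne_one this

theorem wt_succ (L : ℕ) (ε : ℝ) (z0 : ℂ) (t : ℕ) :
    wt L ε z0 (t + 1) = qq L ε ^ 2 * wt L ε z0 t := by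
  unfold wt qq
  rw [← Complex.exp_nat_mul, ← mul_assoc, ← Complex.exp_add]
  congr 2
  push_cast
  ring

theorem norm_wj (L : ℕ) (ε : ℝ) {z : Fin 3 → ℂ} (hz : ∀ j, ‖z j‖ = 1) (j : Fin 3) (t : ℕ) :
    ‖wj L ε z j t‖ = 1 := by
  unfold wj
  split_ifs
  · exact norm_wt L ε (hz 0) t
  · exact hz j

/-! ### Local expressions -/

theorem XX_inl (ε : ℝ) (z : Fin 3 → ℂ) (t : Fin L) (j : Fin 3) (i : Fin 4) (y : AL L → ℂ) :
    XX ε z t (.inl j) i y =
      (![-(wj L ε z j t * TT y t), -SS y t j, TT y t, SS y (t + 1) j] : Fin 4 → ℂ) i := by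
  fin_cases i
  · fin_cases j
    · simp [XX, cc, lz, sg, sb, lv, TT, ta, wj, wt]
      left
      left
      congr 1
      ring
    · simp [XX, cc, lz, sg, sb, lv, TT, ta, wj]
    · simp [XX, cc, lz, sg, sb, lv, TT, ta, wj]
  · simp [XX, cc, lz, sg, sb, lv, SS]
  · simp [XX, cc, lz, sg, sb, lv, TT]
  · simp [XX, cc, lz, sg, sb, lv, SS]

theorem XX_inr (ε : ℝ) (z : Fin 3 → ℂ) (t : Fin L) (m : Fin 3) (i : Fin 4) (y : AL L → ℂ) :
    XX ε z t (.inr m) i y =
      (![wj L ε z (pi1 m) t * SS y t (pi2 m), -(z (pi2 m) * SS y t (pi1 m)),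
        -SS y t (pi2 m), SS y t (pi1 m)] : Fin 4 → ℂ) i := by
  fin_cases i
  · fin_cases m
    · simp [XX, cc, lz, sg, sb, lv, SS, ta, wj, wt, pi1, pi2]
      left
      left
      congr 1
      ring
    · simp [XX, cc, lz, sg, sb, lv, SS, ta, wj, wt, pi1, pi2]
      left
      left
      congr 1
      ring
    · simp [XX, cc, lz, sg, sb, lv, SS, ta, wj, pi1, pi2]
  · simp [XX, cc, lz, sg, sb, lv, SS]
  · simp [XX, cc, lz, sg, sb, lv, SS]
  · simp [XX, cc, lz, sg, sb, lv, SS]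

theorem ww_q (L : ℕ) (ε : ℝ) (i j : Fin 4) : ww (al L (.inl 0) * ε) i j =
    if i = j then (qq L ε + (qq L ε)⁻¹) / 2 else if i < j then (qq L ε)⁻¹ else qq L ε := by
  have h : al L (.inl 0) * ε = ε / (L : ℝ) ^ 2 := by
    simp [al]
    ring
  unfold ww
  rw [h, ← cos_qq, ← qq_neg]
  rfl

theorem al_inl {j : Fin 3} (hj : j ≠ 0) (L : ℕ) : al L (.inl j) = 0 := by
  simp [al, hj]

theorem al_inr (m : Fin 3) (L : ℕ) : al L (.inr m) = 0 := by
  simp [al]

/-- the local term in the plane of the background field -/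
def P0 (q w xT xm xp yT ym yp : ℂ) : ℂ :=
  (q + q⁻¹) / 2 * (w⁻¹ * xT * (w * yT) + xm * ym + xT * yT + xp * yp) +
  q⁻¹ * (-(w⁻¹ * xT) * (-ym + yT + yp) + -xm * (yT + yp) + xT * yp) +
  q * (-xm * -(w * yT) + xT * (-(w * yT) - ym) + xp * (-(w * yT) - ym + yT))

theorem loc_inl0 (ε : ℝ) {z : Fin 3 → ℂ} (hz : ∀ j, ‖z j‖ = 1) (t : Fin L) (x y : AL L → ℂ) :
    ∑ i, ∑ j, ww (al L (.inl 0) * ε) i j *
      (conj (XX ε z t (.inl 0) i x) * XX ε z t (.inl 0) j y) =
    P0 (qq L ε) (wt L ε (z 0) t) (conj (TT x t)) (conj (SS x t 0)) (conj (SS x (t + 1) 0))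
      (TT y t) (SS y t 0) (SS y (t + 1) 0) := by
  simp only [ww_q, XX_inl, Fin.sum_univ_four]
  simp [wj, conj_wt L ε (hz 0), P0]
  ring

theorem loc_inl (ε : ℝ) {z : Fin 3 → ℂ} (hz : ∀ j, ‖z j‖ = 1) {j : Fin 3} (hj : j ≠ 0)
    (t : Fin L) (x y : AL L → ℂ) :
    ∑ i, ∑ i', ww (al L (.inl j) * ε) i i' *
      (conj (XX ε z t (.inl j) i x) * XX ε z t (.inl j) i' y) =
    (conj (SS x (t + 1) j) - conj (SS x t j) - ((z j)⁻¹ - 1) * conj (TT x t)) *
      (SS y (t + 1) j - SS y t j - (z j - 1) * TT y t) := by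
  rw [al_inl hj, zero_mul, sum_ww_zero]
  simp only [XX_inl, Fin.sum_univ_four]
  simp [wj, hj, conj_unit (hz j)]
  ring

theorem loc_inr (ε : ℝ) {z : Fin 3 → ℂ} (hz : ∀ j, ‖z j‖ = 1) (m : Fin 3)
    (t : Fin L) (x y : AL L → ℂ) :
    ∑ i, ∑ i', ww (al L (.inr m) * ε) i i' *
      (conj (XX ε z t (.inr m) i x) * XX ε z t (.inr m) i' y) =
    (((wj L ε z (pi1 m) t)⁻¹ - 1) * conj (SS x t (pi2 m)) -
      ((z (pi2 m))⁻¹ - 1) * conj (SS x t (pi1 m))) *
    ((wj L ε z (pi1 m) t - 1) * SS y t (pi2 m) - (z (pi2 m) - 1) * SS y t (pi1 m)) := by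
  rw [al_inr, zero_mul, sum_ww_zero]
  simp only [XX_inr, Fin.sum_univ_four]
  have h1 := conj_unit (norm_wj L ε hz (pi1 m) t)
  have h2 := conj_unit (hz (pi2 m))
  simp [h1, h2]
  ring

/-- the local term of the Hessian -/
def LH (q w a b xT x0 x1 x2 x0' x1' x2' yT y0 y1 y2 y0' y1' y2' : ℂ) : ℂ :=
  P0 q w xT x0 x0' yT y0 y0' +
  (x1' - x1 - (a⁻¹ - 1) * xT) * (y1' - y1 - (a - 1) * yT) +
  (x2' - x2 - (b⁻¹ - 1) * xT) * (y2' - y2 - (b - 1) * yT) +
  ((w⁻¹ - 1) * x1 - (a⁻¹ - 1) * x0) * ((w - 1) * y1 - (a - 1) * y0) +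
  ((w⁻¹ - 1) * x2 - (b⁻¹ - 1) * x0) * ((w - 1) * y2 - (b - 1) * y0) +
  ((a⁻¹ - 1) * x2 - (b⁻¹ - 1) * x1) * ((a - 1) * y2 - (b - 1) * y1)

theorem form_h (ε : ℝ) {z : Fin 3 → ℂ} (hz : ∀ j, ‖z j‖ = 1) (x y : AL L → ℂ) :
    form (Matrix.of (hS ε z)) x y = ∑ t ∈ Finset.range L,
      LH (qq L ε) (wt L ε (z 0) t) (z 1) (z 2) (conj (TT x t)) (conj (SS x t 0))
        (conj (SS x t 1)) (conj (SS x t 2)) (conj (SS x (t + 1) 0)) (conj (SS x (t + 1) 1))
        (conj (SS x (t + 1) 2)) (TT y t) (SS y t 0) (SS y t 1) (SS y t 2) (SS y (t + 1) 0)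
        (SS y (t + 1) 1) (SS y (t + 1) 2) := by
  rw [form_hS, Finset.sum_range]
  refine Finset.sum_congr rfl fun t _ => ?_
  rw [Fintype.sum_sum_type, Fin.sum_univ_three, Fin.sum_univ_three, loc_inl0 ε hz,
    loc_inl ε hz (by decide : (1 : Fin 3) ≠ 0), loc_inl ε hz (by decide : (2 : Fin 3) ≠ 0),
    loc_inr ε hz, loc_inr ε hz, loc_inr ε hz]
  simp only [LH]
  have e1 : pi1 0 = 0 := rfl
  have e2 : pi1 1 = 0 := rfl
  have e3 : pi1 2 = 1 := rfl
  have e4 : pi2 0 = 1 := rfl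
  have e5 : pi2 1 = 2 := rfl
  have e6 : pi2 2 = 2 := rfl
  rw [e1, e2, e3, e4, e5, e6]
  have e7 : wj L ε z 0 t = wt L ε (z 0) t := if_pos rfl
  have e8 : wj L ε z 1 t = z 1 := if_neg (by decide)
  rw [e7, e8]
  ring

/-- the local term of the gauge fixing, at the next time -/
def LG (w' a b xT xT' x0' x1' x2' yT yT' y0' y1' y2' : ℂ) : ℂ :=
  (xT' - xT - (w' - 1) * x0' - (a - 1) * x1' - (b - 1) * x2') *
    (yT' - yT - (w'⁻¹ - 1) * y0' - (a⁻¹ - 1) * y1' - (b⁻¹ - 1) * y2')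

/-- the diagonal entry of a transverse block -/
def kd (w a b : ℂ) : ℂ := 2 + (w - 1) * (w⁻¹ - 1) + ((a - 1) * (a⁻¹ - 1) + (b - 1) * (b⁻¹ - 1))

/-- the local term of the blocks -/
def RR (q w w' a b xT xT' x0 x1 x2 x0' x1' x2' yT yT' y0 y1 y2 y0' y1' y2' : ℂ) : ℂ :=
  ((q + q⁻¹) / 2 * (2 - w - w⁻¹) - (q - q⁻¹) * (w - w⁻¹) / 2 +
    ((a - 1) * (a⁻¹ - 1) + (b - 1) * (b⁻¹ - 1))) * (xT * yT) +
  xT' * yT' + xT * yT - xT * yT' - xT' * yT +
  ((1 - q) * (1 + q⁻¹ * w'⁻¹) * (xT' * y0') + (q⁻¹ - 1) * (1 + q⁻¹ * w⁻¹) * (xT * y0')) +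
  ((1 - q⁻¹) * (1 + q * w') * (x0' * yT') + (q - 1) * (1 + q * w) * (x0' * yT)) +
  ((q + q⁻¹ + ((a - 1) * (a⁻¹ - 1) + (b - 1) * (b⁻¹ - 1)) + (2 - w' - w'⁻¹)) * (x0' * y0') +
    (-q⁻¹ * (x0 * y0') - q * (x0' * y0))) +
  (kd w' a b * (x1' * y1') - x1 * y1' - x1' * y1) +
  (kd w' a b * (x2' * y2') - x2 * y2' - x2' * y2)

/-- the boundary terms -/
def gg (q w a b xT x0 x1 x2 yT y0 y1 y2 : ℂ) : ℂ :=
  (q + q⁻¹) / 2 * (x0 * y0) + x1 * y1 + x2 * y2 +
  ((w⁻¹ - 1) * x1 - (a⁻¹ - 1) * x0) * ((w - 1) * y1 - (a - 1) * y0) +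
  ((w⁻¹ - 1) * x2 - (b⁻¹ - 1) * x0) * ((w - 1) * y2 - (b - 1) * y0) +
  ((a⁻¹ - 1) * x2 - (b⁻¹ - 1) * x1) * ((a - 1) * y2 - (b - 1) * y1) +
  (a - 1) * (x1 * yT) + (b - 1) * (x2 * yT) + (a⁻¹ - 1) * (xT * y1) + (b⁻¹ - 1) * (xT * y2) +
  (q⁻¹ * w⁻¹ - q) * (xT * y0) + (q * w - q⁻¹) * (x0 * yT)

theorem local_id (q w a b xT xT' x0 x1 x2 x0' x1' x2' yT yT' y0 y1 y2 y0' y1' y2' : ℂ)
    (hq : q ≠ 0) (hw : w ≠ 0) (ha : a ≠ 0) (hb : b ≠ 0) :
    LH q w a b xT x0 x1 x2 x0' x1' x2' yT y0 y1 y2 y0' y1' y2' +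
      LG (q ^ 2 * w) a b xT xT' x0' x1' x2' yT yT' y0' y1' y2' =
    RR q w (q ^ 2 * w) a b xT xT' x0 x1 x2 x0' x1' x2' yT yT' y0 y1 y2 y0' y1' y2' +
      (gg q w a b xT x0 x1 x2 yT y0 y1 y2 -
        gg q (q ^ 2 * w) a b xT' x0' x1' x2' yT' y0' y1' y2') := by
  simp only [LH, LG, RR, gg, P0, kd]
  field_simp
  ring

/-! ### Sums over the times -/

theorem sum_shift {n : ℕ} (hn : 1 ≤ n) (G : ℕ → ℂ) (h0 : G 0 = 0) :
    ∑ t ∈ Finset.range (n - 1), G (t + 1) = ∑ t ∈ Finset.range n, G t := by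
  obtain ⟨m, rfl⟩ : ∃ m, n = m + 1 := ⟨n - 1, by omega⟩
  rw [Finset.sum_range_succ', h0, add_zero]
  rfl

theorem sum_last {n : ℕ} (hn : 1 ≤ n) (G : ℕ → ℂ) :
    ∑ t ∈ Finset.range (n - 1), G t = ∑ t ∈ Finset.range n, G t - G (n - 1) := by
  obtain ⟨m, rfl⟩ : ∃ m, n = m + 1 := ⟨n - 1, by omega⟩
  rw [Finset.sum_range_succ]
  simp

theorem sum_pos_if {n : ℕ} (hn : 1 ≤ n) (G : ℕ → ℂ) (hG : G n = 0) :
    ∑ t ∈ Finset.range n, (if 0 < t then G t else 0) = ∑ t ∈ Finset.range n, G (t + 1) := by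
  obtain ⟨m, rfl⟩ : ∃ m, n = m + 1 := ⟨n - 1, by omega⟩
  rw [Finset.sum_range_succ', Finset.sum_range_succ, hG]
  simp

theorem sum_lt_if {n : ℕ} (hn : 1 ≤ n) (G : ℕ → ℂ) :
    ∑ t ∈ Finset.range n, (if t + 1 < n then G t else 0) =
      ∑ t ∈ Finset.range n, G t - G (n - 1) := by
  obtain ⟨m, rfl⟩ : ∃ m, n = m + 1 := ⟨n - 1, by omega⟩
  rw [Finset.sum_range_succ, Finset.sum_range_succ]
  have h1 : ∑ t ∈ Finset.range m, (if t + 1 < m + 1 then G t else 0) =
      ∑ t ∈ Finset.range m, G t := by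
    refine Finset.sum_congr rfl fun t ht => ?_
    rw [if_pos]
    have := Finset.mem_range.1 ht
    omega
  rw [h1]
  simp

theorem TT_fin (y : AL L → ℂ) (t : Fin L) : TT y t = y (.inl t) := by
  simp [TT, ex, vT]

theorem SS_fin (y : AL L → ℂ) (s : Fin (L - 1)) (j : Fin 3) : SS y (s + 1) j = y (.inr (s, j)) := by
  have h : (s : ℕ) + 1 < L := by have := s.2; omega
  simp [SS, ex, vS, h]

theorem TT_L (y : AL L → ℂ) : TT y L = 0 := by simp [TT, ex, vT]

theorem SS_0 (y : AL L → ℂ) (j : Fin 3) : SS y 0 j = 0 := by simp [SS, ex, vS]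

theorem SS_L (y : AL L → ℂ) (j : Fin 3) : SS y L j = 0 := by simp [SS, ex, vS]

/-! ### The gauge variations -/

def Dm (L : ℕ) (ε : ℝ) (z : Fin 3 → ℂ) : Matrix (AL L) (Fin (L - 1)) ℂ := Matrix.of fun a s =>
  Sum.elim (fun t : Fin L => (if (s : ℕ) + 1 = t then 1 else 0) - (if (s : ℕ) = t then 1 else 0))
    (fun p : Fin (L - 1) × Fin 3 => if p.1 = s then -(wj L ε z p.2 (s + 1) - 1) else 0) a

theorem Dm_adj (ε : ℝ) (z : Fin 3 → ℂ) (y : AL L → ℂ) (s : Fin (L - 1)) :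
    ∑ a, conj (Dm L ε z a s) * y a = TT y (s + 1) - TT y s -
      ∑ j, conj (wj L ε z j (s + 1) - 1) * SS y (s + 1) j := by
  rw [Fintype.sum_sum_type]
  have h1 : ∑ t : Fin L, conj (Dm L ε z (.inl t) s) * y (.inl t) = TT y (s + 1) - TT y s := by
    set F : ℕ → ℂ := fun t => ((if (s : ℕ) + 1 = t then 1 else 0) -
      (if (s : ℕ) = t then 1 else 0)) * TT y t with hF
    have h2 : ∀ t : Fin L, conj (Dm L ε z (.inl t) s) * y (.inl t) = F t := by
      intro t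
      simp only [hF, TT_fin]
      congr 1
      simp only [Dm, Matrix.of_apply, Sum.elim_inl]
      split_ifs <;> simp
    rw [Finset.sum_congr rfl fun t _ => h2 t, ← Finset.sum_range F]
    simp only [hF, sub_mul, ite_mul, one_mul, zero_mul, Finset.sum_sub_distrib, Finset.sum_ite_eq]
    have h3 := s.2
    rw [if_pos (Finset.mem_range.2 (by omega)), if_pos (Finset.mem_range.2 (by omega))]
  have h4 : ∑ p : Fin (L - 1) × Fin 3, conj (Dm L ε z (.inr p) s) * y (.inr p) =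
      -∑ j, conj (wj L ε z j (s + 1) - 1) * SS y (s + 1) j := by
    rw [Fintype.sum_prod_type, Finset.sum_eq_single s]
    · rw [← Finset.sum_neg_distrib]
      refine Finset.sum_congr rfl fun j _ => ?_
      simp only [Dm, Matrix.of_apply, Sum.elim_inr, if_true, SS_fin]
      rw [map_neg, neg_mul]
    · intro s' _ hs
      refine Finset.sum_eq_zero fun j _ => ?_
      simp only [Dm, Matrix.of_apply, Sum.elim_inr, if_neg hs, map_zero, zero_mul]
    · intro h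
      exact absurd (Finset.mem_univ s) h
  rw [h1, h4]
  ring

theorem form_D (ε : ℝ) {z : Fin 3 → ℂ} (hz : ∀ j, ‖z j‖ = 1) (x y : AL L → ℂ) :
    form (Dm L ε z * (Dm L ε z)ᴴ) x y = ∑ t ∈ Finset.range (L - 1),
      LG (wt L ε (z 0) (t + 1)) (z 1) (z 2) (conj (TT x t)) (conj (TT x (t + 1)))
        (conj (SS x (t + 1) 0)) (conj (SS x (t + 1) 1)) (conj (SS x (t + 1) 2))
        (TT y t) (TT y (t + 1)) (SS y (t + 1) 0) (SS y (t + 1) 1) (SS y (t + 1) 2) := by
  rw [form_gram, Finset.sum_range]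
  refine Finset.sum_congr rfl fun s _ => ?_
  rw [Dm_adj, Dm_adj, Fin.sum_univ_three, Fin.sum_univ_three]
  have e7 : wj L ε z 0 (s + 1) = wt L ε (z 0) (s + 1) := if_pos rfl
  have e8 : wj L ε z 1 (s + 1) = z 1 := if_neg (by decide)
  have e9 : wj L ε z 2 (s + 1) = z 2 := if_neg (by decide)
  rw [e7, e8, e9]
  simp only [LG, map_sub, map_add, map_mul, map_one,
    conj_wt L ε (hz 0), conj_unit (hz 1), conj_unit (hz 2), map_inv₀, inv_inv]
  ring

/-! ### The blocks -/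

/-- the transverse blocks -/
def Km (L : ℕ) (ε : ℝ) (z : Fin 3 → ℂ) : Matrix (Fin (L - 1)) (Fin (L - 1)) ℂ :=
  Matrix.of fun s t => if (s : ℕ) = t then kd (wt L ε (z 0) (s + 1)) (z 1) (z 2)
    else if (t : ℕ) = s + 1 ∨ (s : ℕ) = t + 1 then -1 else 0

theorem sum_fin2 (m n : ℕ) (F : Fin m → Fin n → ℂ) (G : ℕ → ℕ → ℂ) (h : ∀ a b, F a b = G a b) :
    ∑ a, ∑ b, F a b = ∑ a ∈ Finset.range m, ∑ b ∈ Finset.range n, G a b := by
  rw [Finset.sum_range]
  refine Finset.sum_congr rfl fun a _ => ?_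
  rw [Finset.sum_range]
  exact Finset.sum_congr rfl fun b _ => h a b

theorem form_K (hL : 1 ≤ L) (ε : ℝ) (z : Fin 3 → ℂ) (x y : AL L → ℂ) (j : Fin 3) :
    ∑ a, ∑ b, conj (x (.inr (a, j))) * Km L ε z a b * y (.inr (b, j)) =
      ∑ t ∈ Finset.range L, (kd (wt L ε (z 0) (t + 1)) (z 1) (z 2) *
        (conj (SS x (t + 1) j) * SS y (t + 1) j) - conj (SS x t j) * SS y (t + 1) j -
        conj (SS x (t + 1) j) * SS y t j) := by
  have h1 := sum_fin2 (L - 1) (L - 1)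
    (fun a b => conj (x (.inr (a, j))) * Km L ε z a b * y (.inr (b, j)))
    (fun a b => conj (SS x (a + 1) j) * (if a = b then kd (wt L ε (z 0) (a + 1)) (z 1) (z 2)
      else if b = a + 1 ∨ a = b + 1 then -1 else 0) * SS y (b + 1) j) (by
      intro a b
      simp only [SS_fin, Km, Matrix.of_apply])
  rw [h1]
  have hLL : L - 1 + 1 = L := by omega
  rw [tri (L - 1) (fun a b => if a = b then kd (wt L ε (z 0) (a + 1)) (z 1) (z 2)
      else if b = a + 1 ∨ a = b + 1 then -1 else 0) (fun a => conj (SS x (a + 1) j))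
      (fun a => SS y (a + 1) j)]
  · have h2 : ∀ t, t ≠ t + 1 := fun t => by omega
    have h3 : ∀ t, t + 1 ≠ t := fun t => by omega
    simp only [if_true, if_neg (h2 _), if_neg (h3 _), true_or, or_true]
    rw [Finset.sum_add_distrib, Finset.sum_add_distrib, sum_last hL]
    have h4 := sum_shift hL (fun t => -1 * (conj (SS x t j) * SS y (t + 1) j))
      (by rw [SS_0]; simp)
    have h5 := sum_shift hL (fun t => -1 * (conj (SS x (t + 1) j) * SS y t j))
      (by rw [SS_0]; simp)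
    rw [h4, h5, hLL, SS_L, SS_L]
    simp only [Finset.sum_sub_distrib, neg_mul, one_mul, Finset.sum_neg_distrib, mul_zero]
    ring
  · intro s t h2 h3 h4
    rw [if_neg h2, if_neg (by tauto)]
  · simp only [hLL, SS_L, map_zero]
  · simp only [hLL, SS_L]

/-- the diagonal entries of the time block -/
def dA (q w b : ℂ) : ℂ := (q + q⁻¹) / 2 * (2 - w - w⁻¹) - (q - q⁻¹) * (w - w⁻¹) / 2 + b

theorem re_wt {w : ℂ} (hw : conj w = w⁻¹) : (w.re : ℂ) = (w + w⁻¹) / 2 := by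
  rw [← hw, Complex.add_conj]
  push_cast
  ring

theorem im_wt {w : ℂ} (hw : conj w = w⁻¹) : (w.im : ℂ) = (w - w⁻¹) / (2 * Complex.I) := by
  rw [← hw, Complex.sub_conj]
  have := Complex.I_ne_zero
  push_cast
  field_simp

theorem dA_eq (L : ℕ) (ε : ℝ) {w : ℂ} (hw : conj w = w⁻¹) (b : ℝ) (t : ℕ) :
    ((Real.cos (ε / (L : ℝ) ^ 2 / 2) * (2 - 2 * w.re) + 2 * Real.sin (ε / (L : ℝ) ^ 2 / 2) * w.im +
      b + (if 0 < t then 1 else 0) + (if t + 1 < L then 1 else 0) : ℝ) : ℂ) =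
    dA (qq L ε) w b + (if 0 < t then 1 else 0) + (if t + 1 < L then 1 else 0) := by
  have h1 : ∀ p : Prop, ∀ [Decidable p], (((if p then 1 else 0 : ℝ)) : ℂ) = if p then 1 else 0 := by
    intro p _
    split_ifs <;> simp
  push_cast
  have h2 := cos_qq L ε
  have h3 := sin_qq L ε
  push_cast at h2 h3
  rw [h2, h3, re_wt hw, im_wt hw]
  unfold dA
  have := Complex.I_ne_zero
  congr 1
  · congr 1
    · generalize (qq L ε)⁻¹ = qi
      generalize w⁻¹ = wi
      field_simp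
      ring
    · split_ifs <;> simp
  · split_ifs <;> simp

theorem sum_fin2' (m n : ℕ) (F : Fin m → Fin n → ℂ) (G : ℕ → ℕ → ℂ) (h : ∀ a b, F a b = G a b) :
    ∑ a, ∑ b, F a b = ∑ a ∈ Finset.range m, ∑ b ∈ Finset.range n, G a b :=
  sum_fin2 m n F G h

theorem form_A (hL : 1 ≤ L) (D : ℕ → ℂ) (A : Matrix (Fin L) (Fin L) ℂ)
    (hA : ∀ s t : Fin L, A s t = if (s : ℕ) = t then D t + (if 0 < (t : ℕ) then 1 else 0) +
      (if (t : ℕ) + 1 < L then 1 else 0) else if (s : ℕ) = t + 1 ∨ (t : ℕ) = s + 1 then -1 else 0)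
    (x y : AL L → ℂ) :
    ∑ a, ∑ b, conj (x (.inl a)) * A a b * y (.inl b) =
      ∑ t ∈ Finset.range L, (D t * (conj (TT x t) * TT y t) +
        conj (TT x (t + 1)) * TT y (t + 1) + conj (TT x t) * TT y t -
        conj (TT x t) * TT y (t + 1) - conj (TT x (t + 1)) * TT y t) -
      conj (TT x (L - 1)) * TT y (L - 1) := by
  rw [sum_fin2 L L _ (fun a b => conj (TT x a) * (if a = b then D b + (if 0 < b then 1 else 0) +
      (if b + 1 < L then 1 else 0) else if a = b + 1 ∨ b = a + 1 then -1 else 0) * TT y b) (by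
      intro a b
      simp only [TT_fin, hA])]
  rw [tri L (fun a b => if a = b then D b + (if 0 < b then 1 else 0) +
      (if b + 1 < L then 1 else 0) else if a = b + 1 ∨ b = a + 1 then -1 else 0)
      (fun a => conj (TT x a)) (TT y)]
  · have h2 : ∀ t, t ≠ t + 1 := fun t => by omega
    have h3 : ∀ t, t + 1 ≠ t := fun t => by omega
    simp only [if_true, if_neg (h2 _), if_neg (h3 _), true_or, or_true]
    have h4 := sum_pos_if hL (fun t => conj (TT x t) * TT y t) (by simp only [TT_L, mul_zero])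
    have h5 := sum_lt_if hL (fun t => conj (TT x t) * TT y t)
    simp only [Finset.sum_add_distrib, Finset.sum_sub_distrib] at h4 h5 ⊢
    simp only [add_mul, Finset.sum_add_distrib, ite_mul, one_mul, zero_mul, h4, h5, neg_mul,
      Finset.sum_neg_distrib]
    ring
  · intro s t h2 h3 h4
    rw [if_neg h2, if_neg (by tauto)]
  · simp only [TT_L, map_zero]
  · simp only [TT_L]

theorem form_B (hL : 1 ≤ L) (P Q : ℕ → ℂ) (B : Matrix (Fin L) (Fin (L - 1)) ℂ)
    (hB : ∀ (s : Fin L) (t : Fin (L - 1)), B s t = if (s : ℕ) = t + 1 then P s else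
      if (s : ℕ) = t then Q s else 0) (x y : AL L → ℂ) :
    ∑ a, ∑ b, conj (x (.inl a)) * B a b * y (.inr (b, 0)) =
      ∑ t ∈ Finset.range L, (P (t + 1) * (conj (TT x (t + 1)) * SS y (t + 1) 0) +
        Q t * (conj (TT x t) * SS y (t + 1) 0)) := by
  rw [sum_fin2 L (L - 1) _ (fun a b => conj (TT x a) * (if a = b + 1 then P a else
      if a = b then Q a else 0) * SS y (b + 1) 0) (by
      intro a b
      simp only [TT_fin, SS_fin, hB])]
  have hLL : L - 1 + 1 = L := by omega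
  have h1 := mix (L - 1) (fun a b => if a = b + 1 then P a else if a = b then Q a else 0)
    (fun a => conj (TT x a)) (fun b => SS y (b + 1) 0) (by
      intro s t h2 h3
      rw [if_neg h3, if_neg h2])
  rw [hLL] at h1
  rw [h1, sum_last hL, hLL]
  have h2 : ∀ t, t ≠ t + 1 := fun t => by omega
  simp only [if_true, if_neg (h2 _), SS_L, mul_zero, add_zero, sub_zero]
  refine Finset.sum_congr rfl fun t _ => ?_
  ring

theorem form_C (hL : 1 ≤ L) (P Q : ℕ → ℂ) (C : Matrix (Fin (L - 1)) (Fin L) ℂ)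
    (hC : ∀ (t : Fin (L - 1)) (s : Fin L), C t s = if (s : ℕ) = t + 1 then P s else
      if (s : ℕ) = t then Q s else 0) (x y : AL L → ℂ) :
    ∑ a, ∑ b, conj (x (.inr (a, 0))) * C a b * y (.inl b) =
      ∑ t ∈ Finset.range L, (P (t + 1) * (conj (SS x (t + 1) 0) * TT y (t + 1)) +
        Q t * (conj (SS x (t + 1) 0) * TT y t)) := by
  rw [Finset.sum_comm]
  rw [sum_fin2 L (L - 1) _ (fun a b => TT y a * (if a = b + 1 then P a else
      if a = b then Q a else 0) * conj (SS x (b + 1) 0)) (by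
      intro a b
      simp only [TT_fin, SS_fin, hC]
      ring)]
  have hLL : L - 1 + 1 = L := by omega
  have h1 := mix (L - 1) (fun a b => if a = b + 1 then P a else if a = b then Q a else 0)
    (TT y) (fun b => conj (SS x (b + 1) 0)) (by
      intro s t h2 h3
      rw [if_neg h3, if_neg h2])
  rw [hLL] at h1
  rw [h1, sum_last hL, hLL]
  have h2 : ∀ t, t ≠ t + 1 := fun t => by omega
  simp only [if_true, if_neg (h2 _), SS_L, map_zero, mul_zero, add_zero, sub_zero]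
  refine Finset.sum_congr rfl fun t _ => ?_
  ring

theorem form_E (hL : 1 ≤ L) (D : ℕ → ℂ) (q q' : ℂ) (E : Matrix (Fin (L - 1)) (Fin (L - 1)) ℂ)
    (hE : ∀ s t : Fin (L - 1), E s t = if (s : ℕ) = t then D (s + 1) else
      if (t : ℕ) = s + 1 then q else if (s : ℕ) = t + 1 then q' else 0) (x y : AL L → ℂ) :
    ∑ a, ∑ b, conj (x (.inr (a, 0))) * E a b * y (.inr (b, 0)) =
      ∑ t ∈ Finset.range L, (D (t + 1) * (conj (SS x (t + 1) 0) * SS y (t + 1) 0) +
        (q * (conj (SS x t 0) * SS y (t + 1) 0) + q' * (conj (SS x (t + 1) 0) * SS y t 0))) := by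
  rw [sum_fin2 (L - 1) (L - 1) _ (fun a b => conj (SS x (a + 1) 0) * (if a = b then D (a + 1) else
      if b = a + 1 then q else if a = b + 1 then q' else 0) * SS y (b + 1) 0) (by
      intro a b
      simp only [SS_fin, hE])]
  have hLL : L - 1 + 1 = L := by omega
  rw [tri (L - 1) (fun a b => if a = b then D (a + 1) else
      if b = a + 1 then q else if a = b + 1 then q' else 0) (fun a => conj (SS x (a + 1) 0))
      (fun a => SS y (a + 1) 0)]
  · have h2 : ∀ t, t ≠ t + 1 := fun t => by omega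
    have h3 : ∀ t, t + 1 ≠ t := fun t => by omega
    have h6 : ∀ t, t ≠ t + 1 + 1 := fun t => by omega
    simp only [if_true, if_neg (h2 _), if_neg (h3 _), if_neg (h6 _)]
    rw [Finset.sum_add_distrib, Finset.sum_add_distrib, sum_last hL]
    have h4 := sum_shift hL (fun t => q * (conj (SS x t 0) * SS y (t + 1) 0))
      (by rw [SS_0]; simp)
    have h5 := sum_shift hL (fun t => q' * (conj (SS x (t + 1) 0) * SS y t 0))
      (by rw [SS_0]; simp)
    rw [h4, h5, hLL, SS_L, SS_L]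
    simp only [Finset.sum_add_distrib, mul_zero]
    ring
  · intro s t h2 h3 h4
    rw [if_neg h2, if_neg h3, if_neg h4]
  · simp only [hLL, SS_L, map_zero]
  · simp only [hLL, SS_L]

/-- the equivalence of the index sets -/
def e1 (L : ℕ) : (Fin L ⊕ Fin (L - 1)) ⊕ (Fin (L - 1) ⊕ Fin (L - 1)) ≃ AL L where
  toFun := Sum.elim (Sum.elim (fun t => .inl t) (fun s => .inr (s, 0)))
    (Sum.elim (fun s => .inr (s, 1)) (fun s => .inr (s, 2)))
  invFun := Sum.elim (fun t => .inl (.inl t)) (fun p =>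
    if p.2 = 0 then .inl (.inr p.1) else if p.2 = 1 then .inr (.inl p.1) else .inr (.inr p.1))
  left_inv := by
    rintro ((t | s) | (s | s)) <;> simp
  right_inv := by
    rintro (t | ⟨s, j⟩)
    · simp
    · fin_cases j <;> simp

theorem form_blk (hL : 1 ≤ L) (ε : ℝ) {z : Fin 3 → ℂ} (hz : ∀ j, ‖z j‖ = 1) (b : ℝ)
    (x y : AL L → ℂ) :
    form (blk L ε (z 0) b) (fun i => x (e1 L (.inl i))) (fun i => y (e1 L (.inl i))) =
      (∑ t ∈ Finset.range L, (dA (qq L ε) (wt L ε (z 0) t) b * (conj (TT x t) * TT y t) +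
        conj (TT x (t + 1)) * TT y (t + 1) + conj (TT x t) * TT y t -
        conj (TT x t) * TT y (t + 1) - conj (TT x (t + 1)) * TT y t) -
      conj (TT x (L - 1)) * TT y (L - 1)) +
      (∑ t ∈ Finset.range L, ((1 - qq L ε) * (1 + (qq L ε)⁻¹ * (wt L ε (z 0) (t + 1))⁻¹) *
          (conj (TT x (t + 1)) * SS y (t + 1) 0) +
        ((qq L ε)⁻¹ - 1) * (1 + (qq L ε)⁻¹ * (wt L ε (z 0) t)⁻¹) *
          (conj (TT x t) * SS y (t + 1) 0))) +
      (∑ t ∈ Finset.range L, ((1 - (qq L ε)⁻¹) * (1 + qq L ε * wt L ε (z 0) (t + 1)) *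
          (conj (SS x (t + 1) 0) * TT y (t + 1)) +
        (qq L ε - 1) * (1 + qq L ε * wt L ε (z 0) t) * (conj (SS x (t + 1) 0) * TT y t))) +
      ∑ t ∈ Finset.range L, ((qq L ε + (qq L ε)⁻¹ + b +
          (2 - wt L ε (z 0) (t + 1) - (wt L ε (z 0) (t + 1))⁻¹)) *
          (conj (SS x (t + 1) 0) * SS y (t + 1) 0) +
        (-(qq L ε)⁻¹ * (conj (SS x t 0) * SS y (t + 1) 0) +
          -qq L ε * (conj (SS x (t + 1) 0) * SS y t 0))) := by
  have hw : ∀ t, conj (wt L ε (z 0) t) = (wt L ε (z 0) t)⁻¹ := conj_wt L ε (hz 0)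
  unfold blk
  simp only
  rw [form_blocks]
  congr 1
  · congr 1
    · congr 1
      · refine form_A hL (fun t => dA (qq L ε) (wt L ε (z 0) t) b) _ ?_ x y
        intro s t
        have h1 : s = t ↔ (s : ℕ) = t := Fin.ext_iff
        simp only [Matrix.of_apply, h1]
        congr 1
        exact dA_eq L ε (hw t) b t
      · refine form_B hL (fun t => (1 - qq L ε) * (1 + (qq L ε)⁻¹ * (wt L ε (z 0) t)⁻¹))
          (fun t => ((qq L ε)⁻¹ - 1) * (1 + (qq L ε)⁻¹ * (wt L ε (z 0) t)⁻¹)) _ ?_ x y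
        intro s t
        simp only [Matrix.of_apply, ← hw, ← qq_neg]
        rfl
    · refine form_C hL (fun t => (1 - (qq L ε)⁻¹) * (1 + qq L ε * wt L ε (z 0) t))
        (fun t => (qq L ε - 1) * (1 + qq L ε * wt L ε (z 0) t)) _ ?_ x y
      intro t s
      simp only [Matrix.of_apply]
      rw [apply_ite (starRingEnd ℂ), apply_ite (starRingEnd ℂ), map_zero]
      simp only [map_mul, map_sub, map_add, map_one, Complex.conj_conj]
      have h2 : conj (Complex.exp (-(Complex.I * (((ε / (L : ℝ) ^ 2 : ℝ) : ℂ) / 2)))) =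
          qq L ε := by
        rw [qq_neg, map_inv₀, conj_qq, inv_inv]
      have h3 : conj (Complex.exp (Complex.I * (((ε / (L : ℝ) ^ 2 : ℝ) : ℂ) / 2))) =
          (qq L ε)⁻¹ := conj_qq L ε
      rw [h2, h3]
      rfl
  · refine form_E hL (fun t => qq L ε + (qq L ε)⁻¹ + b +
        (2 - wt L ε (z 0) t - (wt L ε (z 0) t)⁻¹)) (-(qq L ε)⁻¹) (-qq L ε) _ ?_ x y
    intro s t
    have h1 : s = t ↔ (s : ℕ) = t := Fin.ext_iff
    simp only [Matrix.of_apply, h1]
    by_cases h : (s : ℕ) = t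
    · rw [if_pos h, if_pos h]
      have h2 := cos_qq L ε
      have h3 := re_wt (hw (t + 1))
      have h4 : ∀ c w : ℝ, (((2 * c + b + (2 - 2 * w)) : ℝ) : ℂ) = 2 * (c : ℂ) + b + (2 - 2 * w) := by
        intro c w
        push_cast
        ring
      rw [h4, h2, h]
      change 2 * ((qq L ε + (qq L ε)⁻¹) / 2) + (b : ℂ) +
        (2 - 2 * (((wt L ε (z 0) (t + 1)).re : ℝ) : ℂ)) = _
      rw [h3]
      ring
    · rw [if_neg h, if_neg h, ← qq_neg]
      rfl

theorem bb_eq {a : ℂ} (ha : ‖a‖ = 1) : ((‖a - 1‖ ^ 2 : ℝ) : ℂ) = (a - 1) * (a⁻¹ - 1) := by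
  rw [← Complex.normSq_eq_norm_sq, ← Complex.mul_conj, map_sub, map_one, conj_unit ha]

theorem block_diag (hL : 1 ≤ L) (ε : ℝ) {z : Fin 3 → ℂ} (hz : ∀ j, ‖z j‖ = 1) :
    (Matrix.of (hS ε z) + Dm L ε z * (Dm L ε z)ᴴ).submatrix (e1 L) (e1 L) =
      Matrix.fromBlocks (blk L ε (z 0) (‖z 1 - 1‖ ^ 2 + ‖z 2 - 1‖ ^ 2)) 0 0
        (Matrix.fromBlocks (Km L ε z) 0 0 (Km L ε z)) := by
  refine eq_of_form fun x' y' => ?_
  rw [form_reindex]
  set x : AL L → ℂ := x' ∘ (e1 L).symm with hx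
  set y : AL L → ℂ := y' ∘ (e1 L).symm with hy
  have hx' : x' = fun i => x (e1 L i) := by
    funext i
    simp [hx]
  have hy' : y' = fun i => y (e1 L i) := by
    funext i
    simp [hy]
  have hF1 : form (Matrix.fromBlocks (blk L ε (z 0) (‖z 1 - 1‖ ^ 2 + ‖z 2 - 1‖ ^ 2)) 0 0
        (Matrix.fromBlocks (Km L ε z) 0 0 (Km L ε z))) x' y' =
      form (blk L ε (z 0) (‖z 1 - 1‖ ^ 2 + ‖z 2 - 1‖ ^ 2)) (fun i => x (e1 L (.inl i)))
        (fun i => y (e1 L (.inl i))) +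
      form (Matrix.fromBlocks (Km L ε z) 0 0 (Km L ε z)) (fun i => x (e1 L (.inr i)))
        (fun i => y (e1 L (.inr i))) := by
    rw [form_blocks, hx', hy']
    simp [form]
  have hF2 : form (Matrix.fromBlocks (Km L ε z) 0 0 (Km L ε z)) (fun i => x (e1 L (.inr i)))
        (fun i => y (e1 L (.inr i))) =
      (∑ a, ∑ b, conj (x (.inr (a, 1))) * Km L ε z a b * y (.inr (b, 1))) +
      (∑ a, ∑ b, conj (x (.inr (a, 2))) * Km L ε z a b * y (.inr (b, 2))) := by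
    rw [form_blocks]
    simp [e1]
  rw [hF1, hF2, form_add, form_h ε hz, form_D ε hz, form_blk hL ε hz, form_K hL, form_K hL,
    sum_last hL]
  have hLL : L - 1 + 1 = L := by omega
  have hlast : LG (wt L ε (z 0) (L - 1 + 1)) (z 1) (z 2) (conj (TT x (L - 1)))
      (conj (TT x (L - 1 + 1))) (conj (SS x (L - 1 + 1) 0)) (conj (SS x (L - 1 + 1) 1))
      (conj (SS x (L - 1 + 1) 2)) (TT y (L - 1)) (TT y (L - 1 + 1)) (SS y (L - 1 + 1) 0)
      (SS y (L - 1 + 1) 1) (SS y (L - 1 + 1) 2) = conj (TT x (L - 1)) * TT y (L - 1) := by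
    rw [hLL, TT_L, TT_L, SS_L, SS_L, SS_L, SS_L, SS_L, SS_L]
    simp only [LG, map_zero]
    ring
  rw [hlast]
  have hq := qq_ne L ε
  have hw := wt_ne L ε (hz 0)
  have hne : ∀ j, z j ≠ 0 := by
    intro j h
    have := hz j
    rw [h, norm_zero] at this
    exact zero_ne_one this
  set g : ℕ → ℂ := fun t => gg (qq L ε) (wt L ε (z 0) t) (z 1) (z 2) (conj (TT x t))
    (conj (SS x t 0)) (conj (SS x t 1)) (conj (SS x t 2)) (TT y t) (SS y t 0) (SS y t 1)
    (SS y t 2) with hg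
  have hg0 : g 0 = 0 := by
    simp only [hg, SS_0, gg, map_zero]
    ring
  have hgL : g L = 0 := by
    simp only [hg, SS_L, gg, map_zero]
    ring
  have htel : ∑ t ∈ Finset.range L, (g t - g (t + 1)) = 0 := by
    rw [Finset.sum_range_sub', hg0, hgL, sub_zero]
  have hloc := Finset.sum_congr (rfl : Finset.range L = Finset.range L) fun t _ =>
    local_id (qq L ε) (wt L ε (z 0) t) (z 1) (z 2) (conj (TT x t)) (conj (TT x (t + 1)))
      (conj (SS x t 0)) (conj (SS x t 1)) (conj (SS x t 2)) (conj (SS x (t + 1) 0))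
      (conj (SS x (t + 1) 1)) (conj (SS x (t + 1) 2)) (TT y t) (TT y (t + 1)) (SS y t 0)
      (SS y t 1) (SS y t 2) (SS y (t + 1) 0) (SS y (t + 1) 1) (SS y (t + 1) 2) hq (hw t)
      (hne 1) (hne 2)
  simp only [← wt_succ] at hloc
  rw [Finset.sum_add_distrib, Finset.sum_add_distrib] at hloc
  have htel' := htel
  simp only [hg] at htel'
  rw [htel', add_zero] at hloc
  have hb : (((‖z 1 - 1‖ ^ 2 + ‖z 2 - 1‖ ^ 2 : ℝ)) : ℂ) =
      (z 1 - 1) * ((z 1)⁻¹ - 1) + (z 2 - 1) * ((z 2)⁻¹ - 1) := by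
    rw [Complex.ofReal_add, bb_eq (hz 1), bb_eq (hz 2)]
  rw [hb]
  rw [← add_sub_assoc, hloc]
  simp only [RR, dA, Finset.sum_add_distrib, Finset.sum_sub_distrib, neg_mul,
    Finset.sum_neg_distrib]
  ring

/-! ### Gauge invariance of the Hessian -/

theorem conj_ww (f : ℝ) (i j : Fin 4) : conj (ww f i j) = ww f j i := by
  have h1 : Complex.I * ((f : ℂ) / 2) = Complex.I * ((f / 2 : ℝ) : ℂ) := by push_cast; ring
  unfold ww
  rcases lt_trichotomy i j with h | h | h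
  · rw [if_neg h.ne, if_pos h, if_neg h.ne', if_neg (not_lt.2 h.le), h1, Complex.exp_neg,
      map_inv₀, conj_exp_I, inv_inv]
  · rw [if_pos h, if_pos h.symm, Complex.conj_ofReal]
  · rw [if_neg h.ne', if_neg (not_lt.2 h.le), if_neg h.ne, if_pos h, h1, Complex.exp_neg,
      conj_exp_I]

theorem herm (ε : ℝ) (z : Fin 3 → ℂ) : (Matrix.of (hS (L := L) ε z))ᴴ = Matrix.of (hS ε z) := by
  ext a b
  rw [Matrix.conjTranspose_apply, Matrix.of_apply, Matrix.of_apply]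
  unfold hS
  rw [RCLike.star_def, map_sum]
  refine Finset.sum_congr rfl fun t _ => ?_
  rw [map_sum]
  refine Finset.sum_congr rfl fun κ _ => ?_
  simp only [map_sum]
  rw [Finset.sum_comm]
  refine Finset.sum_congr rfl fun i _ => Finset.sum_congr rfl fun j _ => ?_
  simp only [map_mul, om, conj_ww, conj_inl1, Complex.conj_conj]
  ring

/-- the gauge parameter, extended by zero -/
def ph (φ : Fin (L - 1) → ℂ) (t : ℕ) : ℂ :=
  if h : 0 < t ∧ t < L then φ ⟨t - 1, by omega⟩ else 0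

theorem ph_0 (φ : Fin (L - 1) → ℂ) : ph φ 0 = 0 := by simp [ph]

theorem ph_L (φ : Fin (L - 1) → ℂ) : ph φ L = 0 := by simp [ph]

theorem ph_fin (φ : Fin (L - 1) → ℂ) (s : Fin (L - 1)) : ph φ (s + 1) = φ s := by
  have h : (s : ℕ) + 1 < L := by have := s.2; omega
  simp [ph, h]

theorem Dm_mul_inl (hL : 1 ≤ L) (ε : ℝ) (z : Fin 3 → ℂ) (φ : Fin (L - 1) → ℂ) (t : ℕ)
    (ht : t < L) : TT (Dm L ε z *ᵥ φ) t = ph φ t - ph φ (t + 1) := by
  have h1 : TT (Dm L ε z *ᵥ φ) t = (Dm L ε z *ᵥ φ) (.inl ⟨t, ht⟩) := TT_fin _ ⟨t, ht⟩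
  rw [h1]
  simp only [Matrix.mulVec, dotProduct, Dm, Matrix.of_apply, Sum.elim_inl]
  have h2 := Finset.sum_range (n := L - 1) (fun s : ℕ => ((if s + 1 = t then (1 : ℂ) else 0) -
    (if s = t then 1 else 0)) * ph φ (s + 1))
  simp only [ph_fin] at h2
  rw [← h2]
  simp only [sub_mul, ite_mul, one_mul, zero_mul, Finset.sum_sub_distrib]
  congr 1
  · rcases Nat.eq_zero_or_pos t with h | h
    · subst h
      simp [ph_0]
    · obtain ⟨m, rfl⟩ : ∃ m, t = m + 1 := ⟨t - 1, by omega⟩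
      simp only [Nat.add_right_cancel_iff]
      rw [Finset.sum_ite_eq', if_pos (Finset.mem_range.2 (by omega))]
  · rw [Finset.sum_ite_eq']
    split_ifs with h
    · rfl
    · have : t + 1 = L := by
        rw [Finset.mem_range] at h
        omega
      rw [this, ph_L]

theorem Dm_mul_inr (ε : ℝ) (z : Fin 3 → ℂ) (φ : Fin (L - 1) → ℂ) (t : ℕ) (j : Fin 3) :
    SS (Dm L ε z *ᵥ φ) t j = -(wj L ε z j t - 1) * ph φ t := by
  by_cases h : 0 < t ∧ t < L
  · obtain ⟨m, rfl⟩ : ∃ m, t = m + 1 := ⟨t - 1, by omega⟩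
    have h1 : SS (Dm L ε z *ᵥ φ) (m + 1) j = (Dm L ε z *ᵥ φ) (.inr (⟨m, by omega⟩, j)) :=
      SS_fin _ ⟨m, by omega⟩ j
    have h2 : ph φ (m + 1) = φ ⟨m, by omega⟩ := ph_fin φ ⟨m, by omega⟩
    rw [h1, h2]
    simp only [Matrix.mulVec, dotProduct, Dm, Matrix.of_apply, Sum.elim_inr]
    rw [Finset.sum_eq_single ⟨m, by omega⟩]
    · simp
    · intro s _ hs
      rw [if_neg (Ne.symm hs), zero_mul]
    · intro hh
      exact absurd (Finset.mem_univ _) hh
  · have h1 : ph φ t = 0 := by simp [ph, h]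
    rw [h1, mul_zero]
    simp [SS, ex, vS, h]

/-- the local term of the Hessian for a gauge variation -/
theorem local_gauge (q w a b xT x0 x1 x2 x0' x1' x2' p p' : ℂ)
    (hq : q ≠ 0) (hw : w ≠ 0) (ha : a ≠ 0) (hb : b ≠ 0) :
    LH q w a b xT x0 x1 x2 x0' x1' x2' (p - p') (-(w - 1) * p) (-(a - 1) * p) (-(b - 1) * p)
      (-(q ^ 2 * w - 1) * p') (-(a - 1) * p') (-(b - 1) * p') =
    (q - q⁻¹) / 2 * (x0 * ((w + 1) * p)) - (q - q⁻¹) / 2 * (x0' * ((q ^ 2 * w + 1) * p')) := by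
  simp only [LH, P0]
  field_simp
  ring

theorem form_hD (hL : 1 ≤ L) (ε : ℝ) {z : Fin 3 → ℂ} (hz : ∀ j, ‖z j‖ = 1) (x : AL L → ℂ)
    (φ : Fin (L - 1) → ℂ) : form (Matrix.of (hS ε z)) x (Dm L ε z *ᵥ φ) = 0 := by
  have hq := qq_ne L ε
  have hw := wt_ne L ε (hz 0)
  have hne : ∀ j, z j ≠ 0 := by
    intro j h
    have := hz j
    rw [h, norm_zero] at this
    exact zero_ne_one this
  rw [form_h ε hz]
  set g : ℕ → ℂ := fun t => (qq L ε - (qq L ε)⁻¹) / 2 *
    (conj (SS x t 0) * ((wt L ε (z 0) t + 1) * ph φ t)) with hg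
  have h1 : ∀ t ∈ Finset.range L, LH (qq L ε) (wt L ε (z 0) t) (z 1) (z 2) (conj (TT x t))
      (conj (SS x t 0)) (conj (SS x t 1)) (conj (SS x t 2)) (conj (SS x (t + 1) 0))
      (conj (SS x (t + 1) 1)) (conj (SS x (t + 1) 2)) (TT (Dm L ε z *ᵥ φ) t)
      (SS (Dm L ε z *ᵥ φ) t 0) (SS (Dm L ε z *ᵥ φ) t 1) (SS (Dm L ε z *ᵥ φ) t 2)
      (SS (Dm L ε z *ᵥ φ) (t + 1) 0) (SS (Dm L ε z *ᵥ φ) (t + 1) 1)
      (SS (Dm L ε z *ᵥ φ) (t + 1) 2) = g t - g (t + 1) := by
    intro t ht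
    have e7 : ∀ t, wj L ε z 0 t = wt L ε (z 0) t := fun t => if_pos rfl
    have e8 : ∀ t, wj L ε z 1 t = z 1 := fun t => if_neg (by decide)
    have e9 : ∀ t, wj L ε z 2 t = z 2 := fun t => if_neg (by decide)
    rw [Dm_mul_inl hL ε z φ t (Finset.mem_range.1 ht)]
    simp only [Dm_mul_inr, e7, e8, e9, wt_succ]
    rw [local_gauge _ _ _ _ _ _ _ _ _ _ _ _ _ hq (hw t) (hne 1) (hne 2)]
    simp only [hg, wt_succ]
  rw [Finset.sum_congr rfl h1, Finset.sum_range_sub']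
  simp only [hg, ph_0, ph_L]
  ring

theorem form_single {I : Type} [Fintype I] [DecidableEq I] (M : Matrix I I ℂ) (a : I)
    (v : I → ℂ) : form M (Pi.single a 1) v = ∑ b, M a b * v b := by
  unfold form
  rw [Finset.sum_eq_single a]
  · refine Finset.sum_congr rfl fun b _ => ?_
    rw [Pi.single_eq_same, map_one, one_mul]
  · intro c _ hc
    refine Finset.sum_eq_zero fun d _ => ?_
    rw [Pi.single_eq_of_ne hc, map_zero, zero_mul, zero_mul]
  · intro ha
    exact absurd (Finset.mem_univ a) ha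

theorem hD_zero (hL : 1 ≤ L) (ε : ℝ) {z : Fin 3 → ℂ} (hz : ∀ j, ‖z j‖ = 1) :
    (Matrix.of (hS (L := L) ε z) : Matrix (AL L) (AL L) ℂ) * Dm L ε z = 0 := by
  ext a s
  have h1 := form_hD hL ε hz (Pi.single a 1) (Pi.single s 1)
  rw [form_single] at h1
  rw [Matrix.zero_apply, ← h1, Matrix.mul_apply]
  refine Finset.sum_congr rfl fun b _ => ?_
  rw [Matrix.mulVec_single_one]
  rfl

theorem Dh_zero (hL : 1 ≤ L) (ε : ℝ) {z : Fin 3 → ℂ} (hz : ∀ j, ‖z j‖ = 1) :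
    (Dm L ε z)ᴴ * (Matrix.of (hS (L := L) ε z) : Matrix (AL L) (AL L) ℂ) = 0 := by
  have h := congrArg Matrix.conjTranspose (hD_zero hL ε hz)
  rw [Matrix.conjTranspose_mul, herm, Matrix.conjTranspose_zero] at h
  exact h

/-! ### The ghost matrix -/

theorem ph_single (s : Fin (L - 1)) (t : ℕ) :
    ph (Pi.single s (1 : ℂ)) t = if t = s + 1 then 1 else 0 := by
  have hs := s.2
  unfold ph
  by_cases h : 0 < t ∧ t < L
  · rw [dif_pos h]
    by_cases h2 : t = s + 1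
    · subst h2
      rw [if_pos rfl]
      have : (⟨(s : ℕ) + 1 - 1, by omega⟩ : Fin (L - 1)) = s := Fin.ext (by simp)
      rw [this, Pi.single_eq_same]
    · rw [if_neg h2, Pi.single_eq_of_ne]
      intro h3
      have := congrArg Fin.val h3
      simp only at this
      omega
  · rw [dif_neg h, if_neg]
    omega

theorem DD_eq (hL : 1 ≤ L) (ε : ℝ) {z : Fin 3 → ℂ} (hz : ∀ j, ‖z j‖ = 1) :
    (Dm L ε z)ᴴ * Dm L ε z = Km L ε z := by
  ext s s'
  have hs := s.2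
  have hs' := s'.2
  have h1 : ((Dm L ε z)ᴴ * Dm L ε z) s s' =
      ∑ a, conj (Dm L ε z a s) * (Dm L ε z *ᵥ Pi.single s' 1) a := by
    rw [Matrix.mul_apply]
    refine Finset.sum_congr rfl fun a _ => ?_
    rw [Matrix.mulVec_single_one, Matrix.conjTranspose_apply]
    rfl
  rw [h1, Dm_adj, Dm_mul_inl hL _ _ _ _ (by omega), Dm_mul_inl hL _ _ _ _ (by omega),
    Fin.sum_univ_three]
  have e7 : wj L ε z 0 (s + 1) = wt L ε (z 0) (s + 1) := if_pos rfl
  have e8 : wj L ε z 1 (s + 1) = z 1 := if_neg (by decide)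
  have e9 : wj L ε z 2 (s + 1) = z 2 := if_neg (by decide)
  simp only [Dm_mul_inr, e7, e8, e9, ph_single, map_sub, map_one, conj_wt L ε (hz 0),
    conj_unit (hz 1), conj_unit (hz 2), Km, Matrix.of_apply]
  by_cases c1 : (s : ℕ) = s'
  · rw [c1]
    simp [kd]
    ring
  · by_cases c2 : (s' : ℕ) = s + 1
    · rw [if_neg c1, if_pos (Or.inl c2)]
      have c3 : ¬ ((s : ℕ) + 1 = s' + 1) := by omega
      have c4 : (s : ℕ) + 1 + 1 = s' + 1 := by omega
      have c5 : ¬ ((s : ℕ) = s' + 1) := by omega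
      simp only [if_neg c3, if_pos c4, if_neg c5]
      ring
    · by_cases c6 : (s : ℕ) = s' + 1
      · rw [if_neg c1, if_pos (Or.inr c6)]
        have c3 : ¬ ((s : ℕ) + 1 = s' + 1) := by omega
        have c4 : ¬ ((s : ℕ) + 1 + 1 = s' + 1) := by omega
        simp only [if_neg c3, if_neg c4, if_pos c6]
        ring
      · have c7 : ¬ ((s' : ℕ) = s + 1 ∨ (s : ℕ) = s' + 1) := by tauto
        rw [if_neg c1, if_neg c7]
        have c3 : ¬ ((s : ℕ) + 1 = s' + 1) := by omega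
        have c4 : ¬ ((s : ℕ) + 1 + 1 = s' + 1) := by omega
        simp only [if_neg c3, if_neg c4, if_neg c6]
        ring

open scoped ComplexOrder in
theorem det_K_ne (hL : 1 ≤ L) (ε : ℝ) {z : Fin 3 → ℂ} (hz : ∀ j, ‖z j‖ = 1) :
    det (Km L ε z) ≠ 0 := by
  intro h
  obtain ⟨v, hv, hv2⟩ := Matrix.exists_mulVec_eq_zero_iff.2 h
  apply hv
  rw [← DD_eq hL ε hz, Matrix.conjTranspose_mul_self_mulVec_eq_zero] at hv2
  have h1 : ∀ t, t < L → ph v t = ph v (t + 1) := by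
    intro t ht
    have h2 := Dm_mul_inl hL ε z v t ht
    rw [hv2] at h2
    have h3 : TT (0 : AL L → ℂ) t = 0 := by
      unfold TT ex
      cases vT L t <;> rfl
    rw [h3] at h2
    exact (sub_eq_zero.1 h2.symm)
  have h4 : ∀ t, t ≤ L → ph v t = 0 := by
    intro t
    induction t with
    | zero => intro _; exact ph_0 v
    | succ t ih =>
      intro ht
      rw [← h1 t (by omega)]
      exact ih (by omega)
  funext s
  have := s.2
  rw [← ph_fin v s, h4 _ (by omega)]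
  rfl

/-! ### The theorem -/

/-- the time links except the last one, and the other links -/
def e2 (L : ℕ) [NeZero L] : Option (Fin (L - 1) × Fin 3) ⊕ Fin (L - 1) ≃ AL L where
  toFun := Sum.elim (jJ L) (fun t => .inl ⟨t, by have := t.2; omega⟩)
  invFun := Sum.elim (fun t => if h : (t : ℕ) < L - 1 then .inr ⟨t, h⟩ else .inl none)
    (fun a => .inl (some a))
  left_inv := by
    rintro ((_ | a) | t)
    · simp [jJ]
    · simp [jJ]
    · simp
  right_inv := by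
    rintro (t | a)
    · by_cases h : (t : ℕ) < L - 1
      · simp [h]
      · have h2 := t.2
        have h3 : (t : ℕ) = L - 1 := by omega
        simp only [Sum.elim_inl, dif_neg h, jJ]
        congr 1
        exact Fin.ext h3.symm
    · simp [jJ]

theorem det_T (ε : ℝ) (z : Fin 3 → ℂ) [NeZero L] :
    det (((Dm L ε z).submatrix (e2 L) id).toRows₂) = (-1) ^ (L - 1) := by
  rw [Matrix.det_of_isLowerTriangular]
  · rw [Finset.prod_congr rfl (g := fun _ => (-1 : ℂ)), Finset.prod_const, Finset.card_univ,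
      Fintype.card_fin]
    intro i _
    simp [Matrix.toRows₂, e2, Dm]
  · intro i j hij
    have h1 : (i : ℕ) < j := hij
    have h2 : ¬ ((j : ℕ) + 1 = i) := by omega
    have h3 : ¬ ((j : ℕ) = i) := by omega
    simp [Matrix.toRows₂, e2, Dm, h2, h3]

theorem af_sym (hFP : S_FP) : S_SYM := by
  intro L _ hL2 ε z hz
  have hL : 1 ≤ L := by omega
  have h1 : (Matrix.of (hS (L := L) ε z)).submatrix (e2 L) (e2 L) *
      (Dm L ε z).submatrix (e2 L) id = 0 := by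
    rw [Matrix.submatrix_mul_equiv, hD_zero hL ε hz]
    rfl
  have h2 : ((Dm L ε z).submatrix (e2 L) id)ᴴ *
      (Matrix.of (hS (L := L) ε z)).submatrix (e2 L) (e2 L) = 0 := by
    rw [Matrix.conjTranspose_submatrix, Matrix.submatrix_mul_equiv, Dh_zero hL ε hz]
    rfl
  have h3 := hFP _ _ h1 h2
  rw [det_T, Matrix.conjTranspose_submatrix, Matrix.submatrix_mul_equiv] at h3
  have h4 : (Dm L ε z).submatrix (e2 L) id * (Dm L ε z)ᴴ.submatrix id (e2 L) =
      (Dm L ε z * (Dm L ε z)ᴴ).submatrix (e2 L) (e2 L) := by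
    ext a b
    rfl
  have h5 : (Matrix.of (hS (L := L) ε z)).submatrix (e2 L) (e2 L) +
      (Dm L ε z * (Dm L ε z)ᴴ).submatrix (e2 L) (e2 L) =
      (Matrix.of (hS (L := L) ε z) + Dm L ε z * (Dm L ε z)ᴴ).submatrix (e2 L) (e2 L) := by
    ext a b
    rfl
  have h6 : ((Matrix.of (hS (L := L) ε z)).submatrix (e2 L) (e2 L)).toBlocks₁₁ =
      (Matrix.of (hS (L := L) ε z)).submatrix (jJ L) (jJ L) := by
    ext a b
    rfl
  rw [h4, h5, Matrix.det_submatrix_equiv_self, ← Matrix.det_submatrix_equiv_self (e1 L),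
    block_diag hL ε hz, Matrix.det_fromBlocks_zero₂₁, Matrix.det_fromBlocks_zero₂₁, DD_eq hL ε hz,
    h6, Matrix.submatrix_id_id] at h3
  have h7 : ((-1 : ℂ) ^ (L - 1)) * star ((-1 : ℂ) ^ (L - 1)) = 1 := by
    rw [star_pow, star_neg, star_one, ← mul_pow]
    norm_num
  rw [h7, mul_one] at h3
  have h8 := det_K_ne hL ε hz
  have h9 : det (Km L ε z) ^ 2 ≠ 0 := pow_ne_zero 2 h8
  apply mul_left_cancel₀ h9
  rw [← h3]
  ring

end

end Pool.Agent.Y739.AF
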